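import Pool.Agent.Helper4.PF.Final

/-!
# Compact dilations of moving Parseval frames

Full answer (YES) to Q1 of MP_905dfc_gt.  Let `M` be a closed Riemannian manifold of dimension
`n`, `k ≥ n`, and `f 1, …, f k` a moving Parseval frame for `TM`.  Then there is a closed
Riemannian manifold `N` of dimension `k` which contains `M` isometrically as an embedded
submanifold and carries a moving orthonormal basis `e 1, …, e k` whose orthogonal projection to
`TM` along `M` is the given frame.

Proof: `N` is obtained from the sphere bundle of `ν ⊕ ℝ` (`ν` the rank `k - n` bundle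
complementary to `TM` in the trivial bundle) by connected sums with explicit closed manifolds.
The bundle is parallelised outside the zeros of a generic constant section, near which the
parallelisation is a family of reflections; each of these points is removed by a connected sum
with a circle bundle over a sphere (parallelised), or with a sphere bundle over a sphere which
is parallelised outside one point with a double zero.

The definitions below are stated for manifolds modelled on a real normed space `E`; in the
theorem `E` is `EuclideanSpace ℝ (Fin n)`.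
-/

open scoped Manifold ContDiff

universe u

namespace Pool.Agent.Results.MP_905dfc_gt.CompactDilation

noncomputable section

/-- The value `b v w` of a continuous bilinear form. -/
def ev {X : Type*} [AddCommGroup X] [Module ℝ X] [TopologicalSpace X]
    [IsTopologicalAddGroup X] (b : X →L[ℝ] X →L[ℝ] ℝ) (v w : X) : ℝ := b v w

variable {E F : Type} [NormedAddCommGroup E] [NormedSpace ℝ E]
  [NormedAddCommGroup F] [NormedSpace ℝ F] {k : ℕ} {M N : Type u}
  [TopologicalSpace M] [ChartedSpace E M] [IsManifold 𝓘(ℝ, E) ∞ M]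
  [TopologicalSpace N] [ChartedSpace F N] [IsManifold 𝓘(ℝ, F) ∞ N]

variable (E M) in
/-- Smooth Riemannian metrics on the smooth manifold `M` modelled on `E` (Mathlib). -/
abbrev RiemMetric : Type u :=
  Bundle.ContMDiffRiemannianMetric 𝓘(ℝ, E) ∞ E (fun x : M => TangentSpace 𝓘(ℝ, E) x)

/-- The scalar product on the tangent space at `x`, as a bilinear form. -/
def form (g : RiemMetric E M) (x : M) :
    TangentSpace 𝓘(ℝ, E) x →L[ℝ] TangentSpace 𝓘(ℝ, E) x →L[ℝ] ℝ := g.inner x

/-- The scalar product `g_x(v, w)` of two tangent vectors at `x`. -/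
def ip (g : RiemMetric E M) (x : M) (v w : TangentSpace 𝓘(ℝ, E) x) : ℝ := ev (form g x) v w

/-- The vector field `X` is smooth. -/
def IsSmoothField (X : (x : M) → TangentSpace 𝓘(ℝ, E) x) : Prop :=
  ContMDiff 𝓘(ℝ, E) 𝓘(ℝ, E).tangent ∞ (fun x => (⟨x, X x⟩ : TangentBundle 𝓘(ℝ, E) M))

/-- The vector fields `f i` form a moving Parseval frame: they are smooth and
`∑ i, g(f i, v)² = g(v, v)` for every tangent vector `v`. -/
def IsMovingParseval (g : RiemMetric E M) (f : Fin k → (x : M) → TangentSpace 𝓘(ℝ, E) x) :
    Prop :=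
  (∀ i, IsSmoothField (f i)) ∧
    ∀ (x : M) (v : TangentSpace 𝓘(ℝ, E) x), ∑ i, ip g x (f i x) v ^ 2 = ip g x v v

/-- The vector fields `e i` are smooth and orthonormal at every point. -/
def IsMovingOrthonormal (h : RiemMetric F N) (e : Fin k → (p : N) → TangentSpace 𝓘(ℝ, F) p) :
    Prop :=
  (∀ i, IsSmoothField (e i)) ∧
    ∀ (p : N) (i l : Fin k), ip h p (e i p) (e l p) = if i = l then 1 else 0

variable (E F) in
/-- The differential of `j` at `x`, applied to the tangent vector `v`. -/
def dMap (j : M → N) (x : M) (v : TangentSpace 𝓘(ℝ, E) x) : TangentSpace 𝓘(ℝ, F) (j x) :=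
  mfderiv 𝓘(ℝ, E) 𝓘(ℝ, F) j x v

/-- `j` is a smooth embedding and the metric induced from `h` on `M` is `g`. -/
def IsIsometricEmbedding (g : RiemMetric E M) (h : RiemMetric F N) (j : M → N) : Prop :=
  Manifold.IsSmoothEmbedding 𝓘(ℝ, E) 𝓘(ℝ, F) ∞ j ∧
    ∀ (x : M) (v w : TangentSpace 𝓘(ℝ, E) x),
      ip h (j x) (dMap E F j x v) (dMap E F j x w) = ip g x v w

/-- The orthogonal projection of `e i (j x)` onto `dj(T_x M)` is `dj (f i x)`:
the difference is orthogonal to `dj(T_x M)`. -/
def ProjectsTo (h : RiemMetric F N) (j : M → N) (e : Fin k → (p : N) → TangentSpace 𝓘(ℝ, F) p)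
    (f : Fin k → (x : M) → TangentSpace 𝓘(ℝ, E) x) : Prop :=
  ∀ (x : M) (i : Fin k) (v : TangentSpace 𝓘(ℝ, E) x),
    ip h (j x) (e i (j x) - dMap E F j x (f i x)) (dMap E F j x v) = 0

variable (F) in
/-- `(M, g)` with the vector fields `f 1, …, f k` has a compact dilation modelled on `F`: a
closed manifold `N` modelled on `F` with a smooth Riemannian metric `h`, smooth vector fields
`e 1, …, e k` orthonormal at every point of `N`, and an isometric embedding `j : M → N` such
that the orthogonal projection of `e i` to `TM` along `M` is `f i`. -/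
def HasCompactDilation (g : RiemMetric E M)
    (f : Fin k → (x : M) → TangentSpace 𝓘(ℝ, E) x) : Prop :=
  ∃ (N : Type u) (_ : TopologicalSpace N) (_ : CompactSpace N) (_ : T2Space N)
    (_ : ChartedSpace F N) (_ : IsManifold 𝓘(ℝ, F) ∞ N) (h : RiemMetric F N)
    (e : Fin k → (p : N) → TangentSpace 𝓘(ℝ, F) p) (j : M → N),
    IsIsometricEmbedding g h j ∧ IsMovingOrthonormal h e ∧ ProjectsTo h j e f

/-- Every moving Parseval frame of `k` vector fields on a closed Riemannian `n`-manifold is the
projection of a moving orthonormal basis of a closed Riemannian `k`-manifold. -/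
theorem result (n k : ℕ) (hnk : n ≤ k)
    (M : Type u) [TopologicalSpace M] [CompactSpace M] [T2Space M]
    [ChartedSpace (EuclideanSpace ℝ (Fin n)) M] [IsManifold (𝓡 n) ∞ M]
    (g : RiemMetric (EuclideanSpace ℝ (Fin n)) M)
    (f : Fin k → (x : M) → TangentSpace (𝓡 n) x) (hf : IsMovingParseval g f) :
    HasCompactDilation (EuclideanSpace ℝ (Fin k)) g f := by
  obtain ⟨N, t, c, T2, ch, mf, h, e, j, h1, h2, h3, h4, h5⟩ :=
    PF.compact_dilation hnk g f hf.1 hf.2
  exact ⟨N, t, c, T2, ch, mf, h, e, j, ⟨h1, h2⟩, ⟨h3, h4⟩, h5⟩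

end

end Pool.Agent.Results.MP_905dfc_gt.CompactDilation
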